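import Pool.Agent.TH771.PN.Thr

/-!
# The measure of `NP` in `E` and in `E₂` after few changes of a random oracle

`Close G O A` says that for all large `n` the oracles `O` and `A` differ on at most `G n` strings of
length at most `n`. `NullC j A X` says that the class `X` of languages has a null cover computed in
time `2 ^ O((log N) ^ j)` relative to `A`, and `InE j` is `DTIME(2 ^ O(n ^ j))` relative to `A`, so
that `ZeroE` and `ZeroE2` say that `X` has measure `0` in `E` and in `E₂`, relative to `A`.

For almost every oracle `O`: an adversary who may change at most `G n` strings of length at most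
`n` can make `NP` (and `PSPACE`) small in `E` and in `E₂` if and only if `G` tends to infinity. The
changes can be made such that still `NP` is not contained in `coNP/poly`, `PSPACE` not in
`PH/poly`, and `EXP` not in `PSPACE/poly`.
-/

set_option autoImplicit false

namespace Pool.Agent.Results.MP_a0edbc_lc.ChangedStrings

open MeasureTheory Filter Pool.Agent.H620R2.Gauge
open Pool.Agent.H628R3.RO (randomOracle)
open Pool.Agent.W900.CH (Close)
open Pool.Agent.TH771.CS (Far)
open Pool.Agent.TH93.ML (NullC InE)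
open Pool.Agent.TH771.PN

/-- `X` has measure `0` in `E`, relative to `A` -/
def ZeroE (A : Oracle) (X : Set (Set (List Bool))) : Prop :=
  NullC 1 A {L | L ∈ X ∧ InE 1 A L}

/-- `X` has measure `0` in `E₂`, relative to `A` -/
def ZeroE2 (A : Oracle) (X : Set (Set (List Bool))) : Prop :=
  ∃ j : ℕ, 1 ≤ j ∧ NullC j A {L | L ∈ X ∧ ∃ i : ℕ, InE i A L}

theorem result : ∀ᵐ O ∂randomOracle, ∀ G : ℕ → ℝ,
    (¬ Tendsto G atTop atTop → ∀ A : Oracle, Close G O A →
      ¬ ZeroE A {L | IsNP A L} ∧ ¬ ZeroE2 A {L | IsNP A L}) ∧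
    (Tendsto G atTop atTop → ∃ A : Oracle, Close G O A ∧
      ZeroE A {L | IsNP A L ∨ IsPSPACE A L} ∧ ZeroE2 A {L | IsNP A L ∨ IsPSPACE A L} ∧
      Far A) := by
  filter_upwards [ae_thr] with O h G
  refine ⟨fun hG A hA => ?_, fun hG => ?_⟩
  · have hB := (h G).1 hG A hA
    refine ⟨big_np hB le_rfl, ?_⟩
    rintro ⟨j, hj, hn⟩
    exact big_np hB hj (NullC.mono hn fun L hL => ⟨hL.1, j, hL.2⟩)
  · obtain ⟨A, h1, h2, h3⟩ := (h G).2 hG
    exact ⟨A, h1, NullC.mono h2 fun L hL => hL.1, ⟨1, le_rfl, NullC.mono h2 fun L hL => hL.1⟩, h3⟩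

end Pool.Agent.Results.MP_a0edbc_lc.ChangedStrings
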