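import Pool.Agent.TH93.ML.Main

/-!
# The measure of `NP` in `E` and in `E₂` relative to a random oracle, and the number of guessed bits

`NullC j A X` says that the class `X` of languages has a null cover which is computed with oracle
`A` in time polynomial in `2 ^ ((log N) ^ j)`, where `N` is the size of the input: for `j = 1` these
are the `p`-computable null covers, and the `p₂`-computable null covers are those for all `j`
together. `InE j A L` says that `L` is decided with oracle `A` in time `2 ^ O(n ^ j)`: for `j = 1`
this is the class `E`, and `E₂` is the union over all `j`. `InGuess (fun n => n) g A L` says that `L`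
is accepted with oracle `A` in nondeterministic polynomial time with `g (n)` guessed bits;
`InFew g A L` adds that every input `x` has at most `|x| + C` accepting strings of guessed bits
(the class `FewP` with `g (n)` guessed bits). `NiceT (fun n => n) g` says that `g (n)` is computed
in unary in polynomial time.

Theorem. Relative to almost every oracle `A`, for all `j ≥ 1`:

1. For all `g`, the following are equivalent: the class `NP` with `g (n)` guessed bits contains a
   language which is random for the null covers computed in time polynomial in
   `2 ^ ((log N) ^ j)`; the class `FewP` with `g (n)` guessed bits contains one;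
   `g (n) / n ^ j` tends to infinity.
2. The languages in `FewP` with `O (n ^ j)` guessed bits, all of which are decided in time
   `2 ^ O(n ^ j)`, together do not have a null cover computed in time polynomial in
   `2 ^ ((log N) ^ j)` (although, by 1., each of them has one).

So relative to almost every oracle, even `FewP ∩ E` with `O (n)` guessed bits does not have
measure `0` in `E`, and `FewP ∩ E₂` does not have measure `0` in `E₂`, while random languages need
more than `O (n)` guessed bits for `E`, and more than every polynomial for `E₂` (so there are none
in `NP` that are random for all the `p₂`-computable null covers).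
-/

set_option autoImplicit false

namespace Pool.Agent.Results.MP_a0edbc_lc.GuessedBitsMeasure

open Pool.Agent.TH93.ML Pool.Agent.TH93.GL Pool.Agent.H620R2.Gauge MeasureTheory Filter

/-- **The measure of `NP` relative to a random oracle and the number of guessed bits.** -/
theorem result : ∀ᵐ A ∂ranO, ∀ j : ℕ, 1 ≤ j →
    (∀ g : ℕ → ℕ, NiceT (fun n => n) g → List.TFAE [
      ∃ L, InGuess (fun n => n) g A L ∧ ¬ NullC j A {L},
      ∃ L, InFew g A L ∧ ¬ NullC j A {L},
      ∀ c : ℕ, ∀ᶠ n in atTop, c * n ^ j ≤ g n]) ∧
    ¬ NullC j A {L | (∃ c : ℕ, InFew (fun n => c * n ^ j) A L) ∧ InE j A L} :=
  law

end Pool.Agent.Results.MP_a0edbc_lc.GuessedBitsMeasure
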