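import Pool.Agent.TH733.RG.Gamb
import Pool.Agent.TH93.ML.Main
import Pool.Agent.TH93.GL.Np

/-!
# Common translates of independent random oracles: the measure of `NP` in `E` and in `E₂`

`xor2 A B` is the symmetric difference of the oracles `A` and `B`, the translate of `A` by `B`.
`NullC j A X` says that the class `X` of languages has a null cover computed in time
`2 ^ O((log N) ^ j)` relative to `A`, and `InE j` is `DTIME(2 ^ O(n ^ j))` relative to `A`, so that
`ZeroE` and `ZeroE2` say that `X` has measure `0` in `E` and in `E₂`, relative to `A`.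

* For every sequence `B 0, B 1, ...` of oracles there is one oracle `A` such that, relative to every
  translate of `A` by a `B i`, `NP` and `PSPACE` have measure `0` in `E` and in `E₂`.
* Let the `B i` be independent random oracles. Almost surely, for every set `I` of numbers there is
  one oracle `A` such that for all `i`, relative to the translate of `A` by `B i`: if `i` is in `I`,
  then `NP` and `PSPACE` have measure `0` in `E` and in `E₂`; if `i` is not in `I`, then `NP` does
  not have measure `0` in `E`, and not in `E₂`, and not in any `E_j`.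

So every pattern of answers is realised by the translates of one oracle.

Proof. `A` codes the computations relative to its translates by the `B i`, `i ∈ I`, masked by
`B i`, so that each set in `PSPACE` relative to these translates is read off from the oracle by one
question `1^e 0 1^m 0 x`, where `m` depends on the length of `x` only. A gambler who guesses `e` and
`m` wins on all these sets (`RG/Gamb.lean`). On the strings of length at most `n` the oracle `A`
depends on `I` only in a very slowly growing initial segment; and for a fixed `I` the translate by an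
independent random oracle is random. The theorem on random oracles (`TH93.ML.law`) says that the
exceptional oracles have measure zero. Every set of measure zero is a null set for some gauge that
tends to infinity (`RG/Zero.lean`), and a slow enough dependence on `I` allows to treat all `I` at
the same time.
-/

set_option autoImplicit false

namespace Pool.Agent.Results.MP_a0edbc_lc.IndependentTranslates

open MeasureTheory Filter Pool.Agent.NPC Pool.Agent.H620R2.Gauge
open Pool.Agent.H628R3.RO (randomOracle)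
open Pool.Agent.TH93.ML (NullC InE InFew law nice_pow)
open Pool.Agent.TH733 Pool.Agent.TH733.RG
open Pool.Agent.TH733.RT (xor2 randomSeq)

/-- `X` has measure `0` in `E`, relative to `A` -/
def ZeroE (A : Oracle) (X : Set (Set (List Bool))) : Prop :=
  NullC 1 A {L | L ∈ X ∧ InE 1 A L}

/-- `X` has measure `0` in `E₂`, relative to `A` -/
def ZeroE2 (A : Oracle) (X : Set (Set (List Bool))) : Prop :=
  ∃ j : ℕ, 1 ≤ j ∧ NullC j A {L | L ∈ X ∧ ∃ i : ℕ, InE i A L}

/-- `NP` does not have measure `0` in `E_j`, for all `j`, relative to `A` -/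
def Big (A : Oracle) : Prop := ∀ j : ℕ, 1 ≤ j → ¬ NullC j A {L | IsNP A L ∧ InE j A L}

/-- `NP` and `PSPACE` have measure `0` in `E` and in `E₂`, relative to `A` -/
def Small (A : Oracle) : Prop :=
  (ZeroE A {L | IsNP A L} ∧ ZeroE2 A {L | IsNP A L}) ∧
    ZeroE A {L | IsPSPACE A L} ∧ ZeroE2 A {L | IsPSPACE A L}

theorem mono {j : ℕ} {A : Oracle} {X Y : Set (Set (List Bool))} (h : NullC j A Y)
    (hXY : X ⊆ Y) : NullC j A X := by
  obtain ⟨d, F, h1, h2, h3, h4, h5, h6⟩ := h
  exact ⟨d, F, h1, h2, h3, h4, h5, fun k L hL => h6 k L (hXY hL)⟩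

theorem small_of {A : Oracle} {R : ℕ → Polynomial ℕ}
    (h : ∀ L, IsPSPACE A L → ∃ e, ∀ x, x ∈ L ↔ A (code R e x) = true) : Small A := by
  have key : NullC 1 A {L | IsPSPACE A L} := mono (Gam.nullC A R 1) fun L hL => h L hL
  refine ⟨⟨mono key fun L hL => ?_, 1, le_rfl, mono key fun L hL => ?_⟩,
    mono key fun L hL => ?_, 1, le_rfl, mono key fun L hL => ?_⟩
  · exact IsNP.isPSPACE hL.1
  · exact IsNP.isPSPACE hL.1
  · exact hL.1
  · exact hL.1

theorem big_zero {A : Oracle} (h : Big A) :
    ¬ ZeroE A {L | IsNP A L} ∧ ¬ ZeroE2 A {L | IsNP A L} := by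
  refine ⟨h 1 le_rfl, ?_⟩
  rintro ⟨j, hj, hn⟩
  exact h j hj (mono hn fun L hL => ⟨hL.1, j, hL.2⟩)

theorem ae_big : ∀ᵐ A ∂randomOracle, Big A := by
  have h0 : ranO = randomOracle := rfl
  rw [← h0]
  filter_upwards [law] with A hA j hj hn
  refine (hA j hj).2 (mono hn ?_)
  rintro L ⟨⟨c, hc⟩, hE⟩
  exact ⟨Pool.Agent.TH93.GL.InGuess.np (nice_pow c j) hc.guess, hE⟩

/-- all sets of measure zero, with the questions to the coded oracle -/
theorem use_code {S : Set Oracle} (hS : randomOracle S = 0) :
    ∃ R : ℕ → Polynomial ℕ,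
      (∀ B : ℕ → Oracle, ∃ A : Oracle, ∀ i, ∀ L, IsPSPACE (xor2 A (B i)) L →
        ∃ e, ∀ x, x ∈ L ↔ xor2 A (B i) (code R e x) = true) ∧
      ∀ᵐ B ∂randomSeq, ∀ I : Set ℕ, ∃ A : Oracle,
        (∀ i ∈ I, ∀ L, IsPSPACE (xor2 A (B i)) L →
          ∃ e, ∀ x, x ∈ L ↔ xor2 A (B i) (code R e x) = true) ∧
        ∀ i ∉ I, xor2 A (B i) ∉ S := by
  obtain ⟨f, hf, hfS⟩ := exists_gauge hS
  obtain ⟨h, hh, h1⟩ := exists_lazy hf
  obtain ⟨R, V, hg, h2⟩ := exists_pspace hh
  refine ⟨R, fun B => ⟨coded h (code R) V Set.univ B, fun i L hL =>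
    h2 Set.univ B i (Set.mem_univ i) L hL⟩, ?_⟩
  filter_upwards [ae_translates (slow_coded hh hg) (null_eventually h1 hfS)] with B hB I
  exact ⟨coded h (code R) V I B, fun i hi L hL => h2 I B i hi L hL, fun i hi => hB I i hi⟩

theorem result :
    (∀ B : ℕ → Oracle, ∃ A : Oracle, ∀ i, Small (xor2 A (B i))) ∧
    ∀ᵐ B ∂randomSeq, ∀ I : Set ℕ, ∃ A : Oracle, ∀ i,
      (i ∈ I ↔ ZeroE (xor2 A (B i)) {L | IsNP (xor2 A (B i)) L}) ∧
      (i ∈ I ↔ ZeroE2 (xor2 A (B i)) {L | IsNP (xor2 A (B i)) L}) ∧
      (i ∈ I → Small (xor2 A (B i))) ∧ (i ∉ I → Big (xor2 A (B i))) := by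
  have hS : randomOracle {A : Oracle | ¬ Big A} = 0 := ae_iff.1 ae_big
  obtain ⟨R, h1, h2⟩ := use_code hS
  refine ⟨fun B => ?_, ?_⟩
  · obtain ⟨A, hA⟩ := h1 B
    exact ⟨A, fun i => small_of (hA i)⟩
  · filter_upwards [h2] with B hB I
    obtain ⟨A, h3, h4⟩ := hB I
    refine ⟨A, fun i => ?_⟩
    by_cases hi : i ∈ I
    · have h5 := small_of (h3 i hi)
      exact ⟨iff_of_true hi h5.1.1, iff_of_true hi h5.1.2, fun _ => h5, fun h => absurd hi h⟩
    · have h5 : Big (xor2 A (B i)) := not_not.1 (h4 i hi)
      have h6 := big_zero h5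
      exact ⟨iff_of_false hi h6.1, iff_of_false hi h6.2, fun h => absurd h hi, fun _ => h5⟩

end Pool.Agent.Results.MP_a0edbc_lc.IndependentTranslates
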