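import Pool.Agent.TH755.PM.Main

/-!
# The measure of `NP` in `E` and in `E₂` relative to an oracle and an additional oracle

`Null poly A X` and `Null quasi A X` say that the class `X` of languages has a null cover
computed with oracle `A` in polynomial time, or in time `n ^ ((log n) ^ O(1))`; `join T O` is the
join of the oracles `T` and `O`.

1. For every countable family `C` of sets, for example the finite sets, there is an oracle `H` such
   that for all `T ∈ C`, relative to the join of `T` and `H`, `NP` (even `UP ∩ coUP`) does not have
   measure `0` in `E₂`.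
2. For every oracle `O` and every function `g` which tends to infinity there is a set `T` which
   has, for every `n`, at most `g n` strings of length at most `n`, such that relative to the join
   of `T` and `O`, the classes `NP` and `PSPACE` have measure `0` in `E₂` and in `E`.
-/

namespace Pool.Agent.Results.MP_a0edbc_lc.SparseAdditions

open Filter
open Pool.Agent.Helper556.OM Pool.Agent.H552R2.RM Pool.Agent.TH755.PM

theorem result :
    (∀ C : Set (Set (List Bool)), C.Countable → ∃ H : Set (List Bool), ∀ T ∈ C,
      ¬ Null quasi (join T H) {L | InNP (join T H) L ∧ InE2 (join T H) L} ∧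
      ¬ Null quasi (join T H)
        {L | InUP (join T H) L ∧ InUP (join T H) Lᶜ ∧ InE2 (join T H) L}) ∧
    ∀ (O : Set (List Bool)) (g : ℕ → ℕ), Tendsto g atTop atTop → ∃ T : Set (List Bool),
      (∀ n, {z ∈ T | z.length ≤ n}.ncard ≤ g n) ∧
      Null quasi (join T O)
        {L | (InNP (join T O) L ∨ InPSPACE (join T O) L) ∧ InE2 (join T O) L} ∧
      Null poly (join T O)
        {L | (InNP (join T O) L ∨ InPSPACE (join T O) L) ∧ InE (join T O) L} := by
  refine ⟨fun C hC => ?_, fun O g hg => ?_⟩
  · obtain ⟨H, hH⟩ := exists_hidden C hC
    refine ⟨H, fun T hT => ⟨fun h => hH T hT (null_mono h ?_), hH T hT⟩⟩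
    exact fun L hL => ⟨up_np hL.1, hL.2.2⟩
  · obtain ⟨T, h1, h2⟩ := exists_sparse O g hg
    exact ⟨T, h1, null_mono (null_quasi h2) fun L hL => hL.1, null_mono h2 fun L hL => hL.1⟩

end Pool.Agent.Results.MP_a0edbc_lc.SparseAdditions
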